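import Mathlib

set_option autoImplicit false

open Set Filter Topology

namespace Pool.Agent.Results.MP_fafee5_lc.Exists

/-- Members of the class `𝓜`: closed submonoids of `Ω^Ω`, with `Ω = ℕ` discrete. -/
def InM (S : Submonoid (Function.End ℕ)) : Prop :=
  IsClosed {f : ℕ → ℕ | (show Function.End ℕ from f) ∈ S}

/-- The topology of pointwise convergence on a transformation monoid. -/
instance pw (S : Submonoid (Function.End ℕ)) : TopologicalSpace S :=
  TopologicalSpace.induced (fun f : S => (show ℕ → ℕ from f.1)) Pi.topologicalSpace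

/-- Automatic continuity with respect to `𝓜`. -/
def AutCont (S : Submonoid (Function.End ℕ)) : Prop :=
  ∀ T : Submonoid (Function.End ℕ), InM T → ∀ φ : S →ₙ* T, Continuous φ

/-- Automatic homeomorphicity with respect to `𝓜`. -/
def AutHomeo (S : Submonoid (Function.End ℕ)) : Prop :=
  ∀ T : Submonoid (Function.End ℕ), InM T → ∀ φ : S ≃* T, IsHomeomorph φ

def lam (a : ℕ) : Function.End ℕ := fun x => if a = 0 then x else if x = 0 then a else min a x

def mu (a : ℕ) : Function.End ℕ := fun x => if a = 0 then x else min (a - 1) x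

theorem lam_zero (a : ℕ) : lam a 0 = a := by unfold lam; split_ifs <;> simp_all

theorem lam_mul (a b : ℕ) : lam a * lam b = lam (lam a b) := by
  funext x
  show lam a (lam b x) = lam (lam a b) x
  unfold lam
  split_ifs <;> omega

theorem mu_mul (a b : ℕ) : mu a * mu b = mu (lam a b) := by
  funext x
  show mu a (mu b x) = mu (lam a b) x
  unfold mu lam
  split_ifs <;> omega

def S : Submonoid (Function.End ℕ) where
  carrier := range lam
  one_mem' := ⟨0, rfl⟩
  mul_mem' := by rintro _ _ ⟨a, rfl⟩ ⟨b, rfl⟩; exact ⟨_, (lam_mul a b).symm⟩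

def T : Submonoid (Function.End ℕ) where
  carrier := range mu
  one_mem' := ⟨0, rfl⟩
  mul_mem' := by rintro _ _ ⟨a, rfl⟩ ⟨b, rfl⟩; exact ⟨_, (mu_mul a b).symm⟩

theorem two {A : Set (ℕ → ℕ)} {f : ℕ → ℕ} (h : f ∈ closure A) (x y : ℕ) :
    ∃ g ∈ A, g x = f x ∧ g y = f y := by
  have h1 : ∀ z, ∀ᶠ g in 𝓝 f, g z = f z := fun z =>
    ((continuous_apply z).tendsto f).eventually (show ∀ᶠ m in 𝓝 (f z), m = f z by simp)
  obtain ⟨g, a, b⟩ := mem_closure_iff_nhds.1 h _ ((h1 x).and (h1 y))
  exact ⟨g, b, a⟩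

theorem S_in : InM S := by
  refine closure_subset_iff_isClosed.1 fun f hf => ⟨f 0, funext fun y => ?_⟩
  obtain ⟨_, ⟨a, rfl⟩, h1, h2⟩ := two hf 0 y
  rw [← h1, lam_zero]
  exact h2

theorem T_in : InM T := by
  refine closure_subset_iff_isClosed.1 fun f hf => ?_
  by_cases h : ∀ x, f x = x
  · exact ⟨0, funext fun x => (h x).symm⟩
  push Not at h
  obtain ⟨x, hx⟩ := h
  refine ⟨f x + 1, funext fun y => ?_⟩
  obtain ⟨_, ⟨a, rfl⟩, h1, h2⟩ := two hf x y
  unfold mu at h1 h2 ⊢
  rw [if_neg (by omega)]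
  split_ifs at h1 h2
  · exact absurd h1.symm hx
  · rw [← h2, Nat.add_sub_cancel, ← h1]
    have : min (a - 1) x ≠ x := fun h => hx (h1.symm.trans h)
    omega

theorem eq_lam (f : S) : f.1 = lam (f.1 0) := by
  obtain ⟨_, a, rfl⟩ := f
  show lam a = lam (lam a 0)
  rw [lam_zero]

instance : DiscreteTopology S := by
  refine discreteTopology_iff_isOpen_singleton.2 fun f => ?_
  have : ({f} : Set S) = (fun g : S => g.1 0) ⁻¹' {f.1 0} := by
    ext g
    exact ⟨fun h => congrArg (fun g : S => g.1 0) h, fun h =>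
      Subtype.ext ((eq_lam g).trans ((congrArg lam h).trans (eq_lam f).symm))⟩
  rw [this]
  exact (isOpen_discrete _).preimage ((continuous_apply 0).comp continuous_induced_dom)

def φ : S →* T where
  toFun f := ⟨mu (f.1 0), _, rfl⟩
  map_one' := rfl
  map_mul' f g := Subtype.ext (by
    show mu (f.1 (g.1 0)) = mu (f.1 0) * mu (g.1 0)
    rw [mu_mul, ← eq_lam f])

theorem φ_bij : Function.Bijective φ := by
  constructor
  · intro f g h
    have h1 : mu (f.1 0) (f.1 0 + g.1 0) = mu (g.1 0) (f.1 0 + g.1 0) :=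
      congrArg (fun k : T => k.1 (f.1 0 + g.1 0)) h
    have h2 : f.1 0 = g.1 0 := by
      unfold mu at h1
      split_ifs at h1 <;> omega
    exact Subtype.ext ((eq_lam f).trans ((congrArg lam h2).trans (eq_lam g).symm))
  · rintro ⟨_, a, rfl⟩
    exact ⟨⟨lam a, a, rfl⟩, Subtype.ext (congrArg mu (lam_zero a))⟩

/-- Q1: some closed transformation monoid has automatic continuity but not automatic
homeomorphicity with respect to `𝓜`. -/
theorem result : ∃ S : Submonoid (Function.End ℕ), InM S ∧ AutCont S ∧ ¬ AutHomeo S := by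
  refine ⟨S, S_in, fun _ _ _ => continuous_of_discreteTopology, fun h => ?_⟩
  have h1 := (h T T_in (MulEquiv.ofBijective φ φ_bij)).isOpenMap {1} (isOpen_discrete _)
  rw [image_singleton, map_one] at h1
  have h2 : Tendsto (fun n : ℕ => (⟨mu (n + 1), _, rfl⟩ : T)) atTop (𝓝 1) := by
    rw [nhds_induced, tendsto_comap_iff, tendsto_pi_nhds]
    intro x
    refine tendsto_const_nhds.congr' ?_
    filter_upwards [eventually_ge_atTop x] with n hn
    show x = mu (n + 1) x
    unfold mu
    split_ifs <;> omega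
  obtain ⟨n, hn⟩ := (h2.eventually (h1.mem_nhds rfl)).exists
  have h3 : mu (n + 1) (n + 1) = n + 1 := congrArg (fun k : T => k.1 (n + 1)) hn
  unfold mu at h3
  split_ifs at h3 <;> omega

end Pool.Agent.Results.MP_fafee5_lc.Exists
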