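import Mathlib
import Pool.Agent.H23.Olig

set_option autoImplicit false

open Set Filter Topology

namespace Pool.Agent.Results.MP_fafee5_lc.Oligomorphic

/-- Members of the class `𝓜`: closed submonoids of `Ω^Ω`, with `Ω = ℕ` discrete. -/
def InM (S : Submonoid (Function.End ℕ)) : Prop :=
  IsClosed {f : ℕ → ℕ | (show Function.End ℕ from f) ∈ S}

/-- The topology of pointwise convergence on a transformation monoid. -/
instance pw (S : Submonoid (Function.End ℕ)) : TopologicalSpace S :=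
  TopologicalSpace.induced (fun f : S => (show ℕ → ℕ from f.1)) Pi.topologicalSpace

/-- Automatic continuity with respect to `𝓜`. -/
def AutCont (S : Submonoid (Function.End ℕ)) : Prop :=
  ∀ T : Submonoid (Function.End ℕ), InM T → ∀ φ : S →ₙ* T, Continuous φ

/-- Automatic homeomorphicity with respect to `𝓜`. -/
def AutHomeo (S : Submonoid (Function.End ℕ)) : Prop :=
  ∀ T : Submonoid (Function.End ℕ), InM T → ∀ φ : S ≃* T, IsHomeomorph φ

/-- The group of invertible elements has finitely many orbits on `Ω^n` for every `n ≥ 1`. -/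
def Oligomorphic (S : Submonoid (Function.End ℕ)) : Prop :=
  ∀ n : ℕ, 1 ≤ n → ∃ F : Finset (Fin n → ℕ), ∀ x : Fin n → ℕ, ∃ y ∈ F, ∃ g : Sˣ,
    ∀ i, (g : S).1 (x i) = y i

theorem ev_nhds {S : Submonoid (Function.End ℕ)} (s : S) (a : ℕ) :
    ∀ᶠ t in 𝓝 s, t.1 a = s.1 a :=
  (((continuous_apply a).comp continuous_induced_dom).tendsto s).eventually
    (show ∀ᶠ m in 𝓝 (s.1 a), m = s.1 a by simp)

instance (T : Submonoid (Function.End ℕ)) : ContinuousMul T := by
  refine ⟨continuous_induced_rng.2 (continuous_pi fun n => continuous_iff_continuousAt.2 fun p => ?_)⟩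
  refine tendsto_const_nhds.congr' ?_
  filter_upwards [(continuous_fst.tendsto p).eventually (ev_nhds p.1 (p.2.1 n)),
    (continuous_snd.tendsto p).eventually (ev_nhds p.2 n)] with q h1 h2
  show p.1.1 (p.2.1 n) = q.1.1 (q.2.1 n)
  rw [h2, h1]

instance (T : Submonoid (Function.End ℕ)) : T2Space T :=
  IsEmbedding.t2Space (f := fun f : T => (show ℕ → ℕ from f.1)) ⟨⟨rfl⟩, Subtype.val_injective⟩

open Pool.Agent.H23 in
/-- Q2: for oligomorphic closed transformation monoids, automatic continuity implies automatic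
homeomorphicity. -/
theorem result (S : Submonoid (Function.End ℕ)) (hS : InM S) (ho : Oligomorphic S)
    (hc : AutCont S) : AutHomeo S := by
  intro T hT φ
  have c1 : Continuous φ := hc T hT φ
  have inv : ∀ (g : Sˣ) (x : ℕ), (g⁻¹ : Sˣ).1.1 (g.1.1 x) = x := fun g x =>
    congrArg (fun k : S => k.1 x) g.inv_mul
  have sys : Olig.Sys (fun k (x y : Fin k → ℕ) => ∃ g : Sˣ, ∀ i, (g : S).1 (x i) = y i) := by
    refine ⟨fun ⟨g, h⟩ => ⟨g⁻¹, fun i => by rw [← h i, inv]⟩,
      fun ⟨g, h⟩ ⟨k, h'⟩ => ⟨k * g, fun i => by rw [← h' i, ← h i]; rfl⟩, fun k => ?_,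
      fun ⟨g, h⟩ => ⟨g, fun i => h _⟩,
      fun x y ⟨g, h⟩ => ⟨fun i => g.1.1 (x i), funext h, g, fun _ => rfl⟩⟩
    rcases Nat.eq_zero_or_pos k with rfl | hk
    · exact ⟨{Fin.elim0}, fun x => ⟨_, Finset.mem_singleton_self _, 1, fun i => i.elim0⟩⟩
    · exact ho k hk
  have key : ∀ (t : T) (a : ℕ), ∀ᶠ u in 𝓝 t, (φ.symm u).1 a = (φ.symm t).1 a := by
    refine Olig.minimal sys (fun u : T => (φ.symm u).1) (fun a b x => by rw [map_mul]; rfl)
      (fun f hf => ?_) (fun k x y ⟨g, h⟩ => ⟨φ g.1, ?_, fun i => by simpa using h i⟩) ?_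
    · have : f ∈ {f : ℕ → ℕ | (show Function.End ℕ from f) ∈ S} := by
        refine hS.closure_subset (mem_closure_iff_nhds.2 fun U hU => ?_)
        rw [nhds_pi] at hU
        obtain ⟨I, hI, u, hu, h2⟩ := mem_pi.1 hU
        obtain ⟨g, hg⟩ := hf hI.toFinset
        refine ⟨(φ.symm g).1, h2 fun i hi => ?_, (φ.symm g).2⟩
        rw [hg i (by simpa using hi)]
        exact mem_of_mem_nhds (hu i)
      exact ⟨φ ⟨f, this⟩, by simp⟩
    · simp only [MulEquiv.symm_apply_apply]
      exact Function.LeftInverse.injective (inv g)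
    · intro s W hW
      have h1 : φ ⁻¹' W ∈ 𝓝 (φ.symm s) := c1.continuousAt (by simpa using hW)
      rw [nhds_induced, nhds_pi, mem_comap] at h1
      obtain ⟨V, hV, h⟩ := h1
      obtain ⟨I, hI, u, hu, h2⟩ := mem_pi.1 hV
      refine ⟨hI.toFinset, fun t ht => ?_⟩
      have h3 : φ.symm t ∈ φ ⁻¹' W := h (h2 fun i hi => by
        show (φ.symm t).1 i ∈ u i
        rw [ht i (by simpa using hi)]
        exact mem_of_mem_nhds (hu i))
      simpa using h3
  have c2 : Continuous φ.symm := continuous_induced_rng.2 (continuous_pi fun a =>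
    continuous_iff_continuousAt.2 fun t => tendsto_const_nhds.congr' ((key t a).mono fun _ h => h.symm))
  exact (⟨φ.toEquiv, c1, c2⟩ : S ≃ₜ T).isHomeomorph

end Pool.Agent.Results.MP_fafee5_lc.Oligomorphic
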